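import Mathlib
import Pool.Agent.H845.LocCloneDefs
import Pool.Agent.Run7.h653.RP.Meas

/-!
# MP_c0a48b_al: a positive answer makes all plane sets generated by rectangles

(1) For every set `R` of the plane there is a lattice of cardinality `𝔠` whose chains have at most
four elements with the following property: if it has a join embedding into the lattice of local
clones on a countably infinite set, then `R` is a countable intersection of countable unions of
rectangles `A × B` with arbitrary sides.

(2) So a positive answer to Q1 implies that every subset of the plane is a countable intersection of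
countable unions of rectangles.

(3) If there is a probability measure defined on all sets of real numbers which vanishes at the
points (for instance, if Lebesgue measure has a countably additive extension to all sets of real
numbers), then the answer to Q1 is negative.

The conclusion of (2) fails in the model obtained by adding `ℵ₂` Cohen reals to a model of the
continuum hypothesis (Kunen), so the negative answer to Q1 is consistent with ZFC. By the starting
file `MP_c0a48b_al.AlephOne` the continuum hypothesis implies the positive answer. So Q1 is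
independent of ZFC.

Proof. The lattice consists of the flats `∅`, the points `a x`, `b y`, `d` (`x, y ∈ ℝ`), the pairs
`{a x, b y}` with `(x, y) ∉ R`, and the set of all points. Then `d ≤ a x ⊔ b y` if and only if
`(x, y) ∈ R`. In the lattice of local clones a clone `E` is below the join of `C` and `D` if and only
if every finite piece of a member of `E` is forced by finitely many finite pieces of members of `C`
and of `D`; there are only countably many finite pieces. For (3) let `X` be a set of the least
cardinality among the sets of positive measure, and let `R` be a well-order of `X` of the least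
order type; `R` violates the theorem of Fubini.
-/

set_option autoImplicit false

namespace Pool.Agent.Results.MP_c0a48b_al.PlaneSetsFromRectangles

open Pool.H845.LocClone
open scoped Cardinal

/-- The statement of Q1, word for word as in `S02949`. -/
def Question : Prop :=
  ∀ (LC : Set (∀ n : ℕ, Set ((Fin (n+1) → ℕ) → ℕ))),
      (∀ C : ∀ n : ℕ, Set ((Fin (n+1) → ℕ) → ℕ), C ∈ LC ↔
        ((∀ (n : ℕ) (i : Fin (n+1)), (fun x : Fin (n+1) → ℕ => x i) ∈ C n) ∧
         (∀ (n m : ℕ) (g : (Fin (n+1) → ℕ) → ℕ) (hs : Fin (n+1) → (Fin (m+1) → ℕ) → ℕ),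
            g ∈ C n → (∀ i, hs i ∈ C m) →
              (fun x : Fin (m+1) → ℕ => g (fun i => hs i x)) ∈ C m) ∧
         (∀ (n : ℕ) (g : (Fin (n+1) → ℕ) → ℕ),
            (∀ F : Finset (Fin (n+1) → ℕ), ∃ h ∈ C n, ∀ x ∈ F, h x = g x) → g ∈ C n))) →
      ∀ (L : Type) [Lattice L],
        (∃ N : ℕ, ∀ s : Set L, IsChain (· ≤ ·) s → s.encard ≤ (N : ℕ∞)) →
        Cardinal.mk L = Cardinal.continuum →
        ∃ f : L → (∀ n : ℕ, Set ((Fin (n+1) → ℕ) → ℕ)),
          Function.Injective f ∧ (∀ a, f a ∈ LC) ∧
          (∀ a b, f (a ⊓ b) = f a ⊓ f b) ∧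
          (∀ a b, f a ≤ f (a ⊔ b) ∧ f b ≤ f (a ⊔ b)) ∧
          (∀ a b C, C ∈ LC → f a ≤ C → f b ≤ C → f (a ⊔ b) ≤ C)

/-- `R` is a countable intersection of countable unions of rectangles with arbitrary sides. -/
def FromRectangles (R : Set (ℝ × ℝ)) : Prop :=
  ∃ A : ℕ → ℕ → Set ℝ, ∃ B : ℕ → ℕ → Set ℝ, R = ⋂ i, ⋃ j, A i j ×ˢ B i j

/-- There is a probability measure defined on all sets of real numbers which vanishes at the
points. -/
def TotalMeasure : Prop :=
  ∃ μ : @MeasureTheory.Measure ℝ ⊤, μ Set.univ = 1 ∧ ∀ x : ℝ, μ {x} = 0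

theorem result :
    -- (1)
    (∀ R : Set (ℝ × ℝ), ∃ (L : Type) (_ : Lattice L),
      (∀ s : Set L, IsChain (· ≤ ·) s → s.encard ≤ 4) ∧ #L = 𝔠 ∧
      ((∃ f : L → Ops, IsJoinEmbedding f) → FromRectangles R)) ∧
    -- (2)
    (Question → ∀ R : Set (ℝ × ℝ), FromRectangles R) ∧
    -- (3)
    (TotalMeasure → ¬ Question) := by
  have h1 : ∀ R : Set (ℝ × ℝ), ∃ (L : Type) (_ : Lattice L),
      (∀ s : Set L, IsChain (· ≤ ·) s → s.encard ≤ 4) ∧ #L = 𝔠 ∧
      ((∃ f : L → Ops, IsJoinEmbedding f) → FromRectangles R) := by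
    intro R
    refine ⟨Pool.Agent.Run7.h653.RP.Lat R, inferInstance,
      Pool.Agent.Run7.h653.RP.Lat.chain_le, Pool.Agent.Run7.h653.RP.Lat.mk_lat, ?_⟩
    rintro ⟨f, hf⟩
    exact Pool.Agent.Run7.h653.RP.rect_of_embedding R f hf
  have h2 : Question → ∀ R : Set (ℝ × ℝ), FromRectangles R := by
    intro hQ R
    obtain ⟨L, hL, hc, hcard, hR⟩ := h1 R
    obtain ⟨f, hinj, hcl, -, hub, hlub⟩ := hQ {C | IsLocalClone C} (fun C => Iff.rfl) L
      ⟨4, fun s hs => hc s hs⟩ hcard
    exact hR ⟨f, hinj, hcl, hub, hlub⟩
  refine ⟨h1, h2, ?_⟩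
  rintro ⟨μ, hμ, hp⟩ hQ
  have hfin : @MeasureTheory.IsFiniteMeasure ℝ ⊤ μ :=
    @MeasureTheory.IsFiniteMeasure.mk ℝ ⊤ μ (by rw [hμ]; exact ENNReal.one_lt_top)
  obtain ⟨R, hR⟩ := @Pool.Agent.Run7.h653.RP.not_rect ℝ ⊤ (fun s => trivial) μ hfin
    (by rw [hμ]; exact one_ne_zero) hp
  exact hR (h2 hQ R)

end Pool.Agent.Results.MP_c0a48b_al.PlaneSetsFromRectangles
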